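import Pool.Agent.H5.NV.Cutoff

/-!
# Cutoff for the noisy voter model if the ratio of the degrees is subpolynomial

Q1 asks for cutoff of the `q`-state noisy voter model on bounded-degree graphs from every sequence of initial
states. The library proves this, with a window that depends on the maximal degree. Here the maximal degree is
replaced by the ratio `ρ` of the maximal and the minimal degree, with explicit dependence on `ρ` and `q`:

* window `(2 log ρ + log log n) / θ + C`, where `C` depends on `θ` and `ε` only;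
* mixing time at least `(log n - 4 log ρ - 4 log q - log log n) / 8 - C`.

So there is cutoff whenever `log ρ_n = o(log n)` and `log q_n = o(log n)`. The degrees themselves are
arbitrary: this includes all sequences of regular graphs (also complete graphs and hypercubes), all
sequences of graphs with a bounded ratio of the degrees (the class in which cutoff from a worst-case initial
state is known for `q = 2`), and all graphs with degrees `n^{o(1)}`. The graphs need not be connected: it is enough
that there are no isolated vertices.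

**Proof.** The library bounds the number of descendants of a vertex `v` (the sites whose state depends on the
initial state at `v`) by the sum of their degrees, whose expectation decays at rate `θ`. Here this sum is divided
by the minimal degree. In the lower bound the test function (the sum over the vertices of the degree times the
one-point bias) is divided by the minimal degree too, and the energy of the one-point biases at time `0` is at
least the minimal degree times `n / q²`.

Definitions (library, `Pool.Graph.R_seed8.W788.NV.Defs`): `dg G v` is the degree of `v`, `gen G q θ` the generator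
matrix, `law G q θ x0 t` the law at time `t` from the initial state `x0`, `IsStat G q θ μ` says that `μ` is a
stationary probability vector, `tmix G q θ x0 μ ε` is the mixing time to `μ` from `x0`.
-/

set_option autoImplicit false

namespace Pool.Agent.Results.MP_1c1c61_pr.DegreeRatio

open Pool.Agent.W788.NV Filter Topology

theorem result :
    -- (1) the stationary law
    (∀ (V : Type) [Fintype V] [DecidableEq V] (G : SimpleGraph V) (q : ℕ) (θ : ℝ),
      2 ≤ q → 0 < θ → θ ≤ 1 → (∀ v, 1 ≤ dg G v) → ∃! μ : (V → Fin q) → ℝ, IsStat G q θ μ) ∧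
    -- (2) the window and the order of the mixing time, for all graphs
    (∀ θ ε : ℝ, 0 < θ → θ ≤ 1 → 0 < ε → ε < 1 →
      ∃ C : ℝ, ∀ (q : ℕ) (V : Type) [Fintype V] [DecidableEq V] (G : SimpleGraph V)
        (x0 : V → Fin q) (μ : (V → Fin q) → ℝ) (ρ : ℝ), 2 ≤ q → (∀ v, 1 ≤ dg G v) →
        (∀ v w, (dg G v : ℝ) ≤ ρ * dg G w) → 3 ≤ Fintype.card V → IsStat G q θ μ →
        tmix G q θ x0 μ ε - tmix G q θ x0 μ (1 - ε) ≤
          (2 * Real.log ρ + Real.log (Real.log (Fintype.card V))) / θ + C ∧
        (Real.log (Fintype.card V) - 4 * Real.log ρ - 4 * Real.log q -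
          Real.log (Real.log (Fintype.card V))) / 8 - C ≤ tmix G q θ x0 μ ε) ∧
    -- (3) cutoff from every sequence of initial states
    (∀ (θ : ℝ) (V : ℕ → Type) [∀ n, Fintype (V n)] [∀ n, DecidableEq (V n)]
      (G : ∀ n, SimpleGraph (V n)) (q : ℕ → ℕ) (ρ : ℕ → ℝ) (x0 : ∀ n, V n → Fin (q n))
      (μ : ∀ n, (V n → Fin (q n)) → ℝ), 0 < θ → θ ≤ 1 →
      Tendsto (fun n => Fintype.card (V n)) atTop atTop →
      (∀ᶠ n in atTop, ∀ v, 1 ≤ dg (G n) v) →
      (∀ᶠ n in atTop, ∀ v w, (dg (G n) v : ℝ) ≤ ρ n * dg (G n) w) →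
      (∀ᶠ n in atTop, 2 ≤ q n) →
      Tendsto (fun n => Real.log (ρ n) / Real.log (Fintype.card (V n))) atTop (𝓝 0) →
      Tendsto (fun n => Real.log (q n) / Real.log (Fintype.card (V n))) atTop (𝓝 0) →
      (∀ᶠ n in atTop, IsStat (G n) (q n) θ (μ n)) →
      ∃ T : ℕ → ℝ, Tendsto T atTop atTop ∧
        (∀ ε : ℝ, 0 < ε → ε < 1 →
          Tendsto (fun n => tmix (G n) (q n) θ (x0 n) (μ n) ε / T n) atTop (𝓝 1)) ∧
        ∀ a : ℝ, a < 1 / 8 → ∀ᶠ n in atTop, a * Real.log (Fintype.card (V n)) ≤ T n) ∧
    -- (4) Q1: bounded degrees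
    (∀ (q : ℕ) (θ : ℝ) (Δ : ℕ) (V : ℕ → Type) [∀ n, Fintype (V n)] [∀ n, DecidableEq (V n)]
      (G : ∀ n, SimpleGraph (V n)) (x0 : ∀ n, V n → Fin q) (μ : ∀ n, (V n → Fin q) → ℝ),
      2 ≤ q → 0 < θ → θ < 1 → (∀ n, Fintype.card (V n) = n) →
      (∀ n, 2 ≤ n → (G n).Connected) → (∀ n v, dg (G n) v ≤ Δ) →
      (∀ n, 2 ≤ n → IsStat (G n) q θ (μ n)) →
      ∃ T : ℕ → ℝ, Tendsto T atTop atTop ∧ ∀ ε : ℝ, 0 < ε → ε < 1 →
        Tendsto (fun n => tmix (G n) q θ (x0 n) (μ n) ε / T n) atTop (𝓝 1)) := by
  refine ⟨?_, ?_, ?_, ?_⟩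
  · intro V _ _ G q θ hq h0 h1 hd
    exact p_sta V G q θ (by omega) h0 h1 hd
  · intro θ ε h0 h1 hε hε1
    obtain ⟨C1, hC1⟩ := Pool.Agent.H5.NV.window (ε := ε) h0 h1 hε hε1
    obtain ⟨C2, hC2⟩ := Pool.Agent.H5.NV.order (ε := ε) h0 h1 hε hε1
    refine ⟨max C1 C2, ?_⟩
    intro q V _ _ G x0 μ ρ hq hd hD h3 hμ
    refine ⟨(hC1 q V G x0 μ ρ (by omega) hd hD h3 hμ).trans ?_,
      le_trans ?_ (hC2 q V G x0 μ ρ hq hd hD h3 hμ)⟩
    · have := le_max_left C1 C2
      linarith
    · have := le_max_right C1 C2
      linarith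
  · intro θ V _ _ G q ρ x0 μ h0 h1 hcard hd hD hq hρ hql hμ
    exact Pool.Agent.H5.NV.cutoff h0 h1 V G q ρ x0 μ hcard hd hD hq hρ hql hμ
  · intro q θ Δ V _ _ G x0 μ hq h0 h1 hc hG hD hμ
    have hcard : Tendsto (fun n => Fintype.card (V n)) atTop atTop := by
      have : (fun n => Fintype.card (V n)) = fun n => n := funext hc
      rw [this]
      exact tendsto_id
    have hL : Tendsto (fun n => Real.log (Fintype.card (V n))) atTop atTop :=
      Real.tendsto_log_atTop.comp (tendsto_natCast_atTop_atTop.comp hcard)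
    have hd : ∀ᶠ n in atTop, ∀ v, 1 ≤ dg (G n) v := by
      filter_upwards [eventually_ge_atTop 2] with n hn
      exact dg_pos (G n) (hG n hn) (by rw [hc]; exact hn)
    obtain ⟨T, hT, hT2, -⟩ := Pool.Agent.H5.NV.cutoff h0 h1.le V G (fun _ => q) (fun _ => Δ) x0 μ
      hcard hd (by
        filter_upwards [hd] with n hn v w
        have e1 : (dg (G n) v : ℝ) ≤ Δ := by exact_mod_cast hD n v
        have e2 : (1 : ℝ) ≤ dg (G n) w := by exact_mod_cast hn w
        have e3 : (0 : ℝ) ≤ Δ := Nat.cast_nonneg _
        nlinarith) (Eventually.of_forall fun _ => hq) (hL.const_div_atTop _)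
      (hL.const_div_atTop _) (by
        filter_upwards [eventually_ge_atTop 2] with n hn
        exact hμ n hn)
    exact ⟨T, hT, hT2⟩

end Pool.Agent.Results.MP_1c1c61_pr.DegreeRatio
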